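import Pool.Agent.N204.TB.Stm

/-!
# A general family of bounded cocharacters: equations of small degree give all equations
(adaptation of `N996.BP.Gen`, `Gen2`, `FixAll`)
-/

set_option autoImplicit false
set_option linter.unusedSectionVars false

namespace Pool.Agent.N123.TB.GEN

open Matrix LaurentPolynomial
open Pool.Agent.N996.BP
open Pool.Agent.N204.TB (IsCo cgens CG S_GEN)

variable {ι : Type} [Fintype ι] [DecidableEq ι] {w : ℕ} {o : ι} {P : Set (ℤ → Matrix ι ι ℂ)}

section Unit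

variable {L : Type} [CommRing L] [Algebra ℂ L]

/-- The cocharacter at a unit. -/
noncomputable def lU (w : ℕ) (π : ℤ → Matrix ι ι ℂ) (T : Lˣ) : Matrix ι ι L :=
  ∑ k ∈ Finset.Icc (-w : ℤ) w, ((T ^ k : Lˣ) : L) • (π k).map (algebraMap ℂ L)

lemma lU_map {L' : Type} [CommRing L'] [Algebra ℂ L'] (f : L →ₐ[ℂ] L') (π : ℤ → Matrix ι ι ℂ)
    (T : Lˣ) : (lU w π T).map f = lU w π (Units.map (f : L →* L') T) := by
  rw [lU, lU]
  ext i j
  rw [Matrix.map_apply, Matrix.sum_apply, Matrix.sum_apply, map_sum]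
  refine Finset.sum_congr rfl fun k _ => ?_
  rw [Matrix.smul_apply, Matrix.smul_apply, smul_eq_mul, smul_eq_mul, map_mul, Matrix.map_apply,
    Matrix.map_apply, ← map_zpow, Units.coe_map]
  congr 1
  exact AlgHom.commutes f _

lemma lU_one {π : ℤ → Matrix ι ι ℂ} (h : ∑ k ∈ Finset.Icc (-w : ℤ) w, π k = 1) :
    lU w π (1 : Lˣ) = 1 := by
  have h3 : (1 : Matrix ι ι L) = (1 : Matrix ι ι ℂ).map (algebraMap ℂ L) :=
    (Matrix.map_one _ (map_zero _) (map_one _)).symm
  rw [h3, ← h, lU]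
  ext i j
  rw [Matrix.sum_apply, Matrix.map_apply, Matrix.sum_apply, map_sum]
  refine Finset.sum_congr rfl fun k _ => ?_
  rw [_root_.one_zpow, Units.val_one, one_smul]
  rfl

lemma lU_complex (π : ℤ → Matrix ι ι ℂ) {t : ℂ} (ht : t ≠ 0) :
    lU w π (Units.mk0 t ht) = lt w π t := by
  rw [lU, lt]
  ext i j
  rw [Matrix.sum_apply, Matrix.sum_apply]
  refine Finset.sum_congr rfl fun k _ => ?_
  rw [Matrix.smul_apply, Matrix.smul_apply, smul_eq_mul, smul_eq_mul,
    Units.val_zpow_eq_zpow_val, Units.val_mk0]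
  rfl

/-- the columns of the projectors -/
lemma co_col {π : ℤ → Matrix ι ι ℂ} (h : IsCo w o π) {k : ℤ} (hk : k ∈ Finset.Icc (-w : ℤ) w)
    (hk0 : k ≠ 0) (i : ι) : π k i o = 0 := by
  have h1 : π k * lt w π 2 = (2 : ℂ) ^ k • π k := by
    rw [lt, Finset.mul_sum, Finset.sum_eq_single k]
    · rw [Matrix.mul_smul, h.mul k hk k hk, if_pos rfl]
    · intro l hl hlk
      rw [Matrix.mul_smul, h.mul k hk l hl, if_neg (Ne.symm hlk), smul_zero]
    · intro h'; exact absurd hk h'
  have h2 := congrFun (congrFun h1 i) o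
  have h3 := h.unit 2 two_ne_zero
  rw [Matrix.mul_apply, Finset.sum_eq_single o, h3 o, if_pos rfl, mul_one, Matrix.smul_apply,
    smul_eq_mul] at h2
  · by_contra hne
    have h4 : (2 : ℂ) ^ k = 1 := by
      have : (2 : ℂ) ^ k * π k i o = 1 * π k i o := by rw [one_mul]; exact h2.symm
      exact mul_right_cancel₀ hne this
    have h5 : ‖(2 : ℂ) ^ k‖ = 1 := by rw [h4, norm_one]
    rw [norm_zpow, Complex.norm_ofNat] at h5
    exact hk0 ((zpow_eq_one_iff_right₀ (by norm_num) (by norm_num)).1 h5)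
  · intro b _ hb; rw [h3 b, if_neg hb, mul_zero]
  · intro h'; exact absurd (Finset.mem_univ o) h'

lemma lU_ucol {π : ℤ → Matrix ι ι ℂ} (h : IsCo w o π) (T : Lˣ) : UCol o (lU w π T) := by
  intro i
  have h0 : (0 : ℤ) ∈ Finset.Icc (-w : ℤ) w := by
    rw [Finset.mem_Icc]; omega
  have h1 : π 0 i o = if i = o then 1 else 0 := by
    have h2 := congrFun (congrFun h.sum i) o
    rw [Matrix.sum_apply, Finset.sum_eq_single 0, Matrix.one_apply] at h2
    · exact h2
    · intro k hk hk0; exact co_col h hk hk0 i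
    · intro h'; exact absurd h0 h'
  rw [lU, Matrix.sum_apply, Finset.sum_eq_single 0]
  · rw [_root_.zpow_zero, Units.val_one, one_smul, Matrix.map_apply, h1]
    split_ifs <;> simp
  · intro k hk hk0
    rw [Matrix.smul_apply, Matrix.map_apply, co_col h hk hk0 i, map_zero, smul_zero]
  · intro h'; exact absurd h0 h'

end Unit

section Field

variable {E : Type} [Field E] [Algebra ℂ E]

/-- A generic point with `r` parameters. -/
structure IsG (w : ℕ) (o : ι) (P : Set (ℤ → Matrix ι ι ℂ)) (E : Type) [Field E] [Algebra ℂ E]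
    (g : Matrix ι ι E) (r : ℕ) : Prop where
  tr : Tr ℂ (ent g) r
  dim : ∀ d, Module.finrank ℂ (Vd g d) ≤ (2 * w * d + 1) ^ r
  van : ∀ f : MvPolynomial (ι × ι) ℂ, (∀ γ ∈ CG w P, MvPolynomial.aeval (ent γ) f = 0) →
    MvPolynomial.aeval (ent g) f = 0
  one : ∀ f : MvPolynomial (ι × ι) ℂ, MvPolynomial.aeval (ent g) f = 0 →
    MvPolynomial.aeval (ent (1 : Matrix ι ι ℂ)) f = 0
  unit : UCol o g

lemma isG_zero : IsG w o P ℂ (1 : Matrix ι ι ℂ) 0 := by
  refine ⟨Tr.zero _, fun d => ?_, fun f h => h 1 (Submonoid.one_mem _), fun f h => h, ?_⟩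
  · rw [pow_zero]
    calc Module.finrank ℂ (Vd (1 : Matrix ι ι ℂ) d) ≤ Module.finrank ℂ ℂ :=
          Submodule.finrank_le _
      _ = 1 := Module.finrank_self ℂ
  · intro i
    rw [Matrix.one_apply]

variable {E' : Type} [Field E'] [Algebra ℂ E'] [Algebra E E'] [IsScalarTower ℂ E E']

/-- The dimension bound for the next generic point. -/
lemma Vd_next' (π : ℤ → Matrix ι ι ℂ) (T : E'ˣ) (g : Matrix ι ι E) (d : ℕ) :
    Vd (lU w π T * g.map (algebraMap E E')) d ≤ LV (T : E') (Vd g d) (w * d) := by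
  obtain ⟨g', hg'⟩ : ∃ g', g' = lU w π T * g.map (algebraMap E E') := ⟨_, rfl⟩
  rw [← hg']
  have hT : (T : E') ≠ 0 := T.ne_zero
  have hent : ∀ i j, g' i j ∈ LV (T : E') (Vd g 1) w := by
    intro i j
    rw [hg', Matrix.mul_apply]
    refine Submodule.sum_mem _ fun a _ => ?_
    rw [lU, Matrix.sum_apply, Finset.sum_mul]
    refine Submodule.sum_mem _ fun k hk => ?_
    rw [Matrix.smul_apply, smul_eq_mul, Matrix.map_apply, Matrix.map_apply,
      Units.val_zpow_eq_zpow_val, mul_assoc, ← Algebra.smul_def, mul_smul_comm]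
    exact Submodule.smul_mem _ _ (Submodule.subset_span ⟨k, hk, g a j, Vd_ent a j, rfl⟩)
  have hone : ∀ z : E', z ∈ Set.range (algebraMap ℂ E') → z ∈ LV (T : E') (Vd g 0) 0 := by
    rintro _ ⟨c, rfl⟩
    refine Submodule.subset_span ⟨0, by simp, algebraMap ℂ E c, Vd_algebraMap 0 c, ?_⟩
    rw [_root_.zpow_zero, one_mul, ← IsScalarTower.algebraMap_apply]
  have hpow : ∀ (i j : ι) (n : ℕ), g' i j ^ n ∈ LV (T : E') (Vd g n) (w * n) := by
    intro i j n
    induction n with
    | zero =>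
      rw [pow_zero]
      exact hone 1 ⟨1, map_one _⟩
    | succ n ih =>
      rw [pow_succ]
      have := LV_mul hT (fun v hv v' hv' => Vd_mul hv hv') ih (hent i j)
      rwa [← Nat.mul_succ] at this
  have hprod : ∀ (s : Finset (ι × ι)) (β : ι × ι → ℕ),
      ∏ p ∈ s, g' p.1 p.2 ^ β p ∈
        LV (T : E') (Vd g (∑ p ∈ s, β p)) (w * ∑ p ∈ s, β p) := by
    intro s β
    induction s using Finset.induction_on with
    | empty =>
      rw [Finset.prod_empty, Finset.sum_empty]
      exact hone 1 ⟨1, map_one _⟩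
    | insert a s ha ih =>
      rw [Finset.prod_insert ha, Finset.sum_insert ha, Nat.mul_add]
      exact LV_mul hT (fun v hv v' hv' => Vd_mul hv hv') (hpow _ _ _) ih
  intro z hz
  rw [mem_Vd] at hz
  obtain ⟨f, hf, rfl⟩ := hz
  rw [MvPolynomial.aeval_def, MvPolynomial.eval₂_eq']
  refine Submodule.sum_mem _ fun β hβ => ?_
  rw [← Algebra.smul_def]
  refine Submodule.smul_mem _ _ ?_
  have h1 := hprod Finset.univ β
  have h2 : ∑ p, β p ≤ d := by
    have h3 : ∑ p, β p = β.sum fun _ e => e :=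
      (Finsupp.sum_fintype β (fun _ e => e) fun _ => rfl).symm
    rw [h3]
    exact (MvPolynomial.le_totalDegree hβ).trans hf
  exact LV_mono (Vd_mono h2) (Nat.mul_le_mul_left _ h2) h1

end Field

section Next

variable {E : Type} [Field E] [Algebra ℂ E]

/-- The next point. -/
noncomputable def nx (w : ℕ) (π : ℤ → Matrix ι ι ℂ) (g : Matrix ι ι E) :
    Matrix ι ι (E[T;T⁻¹]) :=
  lU w π (TU E) * g.map (algebraMap E (E[T;T⁻¹]))

lemma nx_spec (π : ℤ → Matrix ι ι ℂ) (g : Matrix ι ι E) (s : Eˣ) :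
    (nx w π g).map (spec s) = lU w π s * g := by
  have h1 : (nx w π g).map (spec s) = (lU w π (TU E)).map (spec s) *
      (g.map (algebraMap E (E[T;T⁻¹]))).map (spec s) := by
    rw [nx]
    exact Matrix.map_mul (f := ((spec s : E[T;T⁻¹] →ₐ[E] E) : E[T;T⁻¹] →+* E))
  rw [h1]
  have h2 := lU_map (w := w) ((spec s : E[T;T⁻¹] →ₐ[E] E).restrictScalars ℂ) π (TU E)
  have h3 : Units.map (((spec s : E[T;T⁻¹] →ₐ[E] E).restrictScalars ℂ : E[T;T⁻¹] →ₐ[ℂ] E) :
      E[T;T⁻¹] →* E) (TU E) = s := spec_TU s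
  rw [h3] at h2
  congr 1
  ext i j
  rw [Matrix.map_apply, Matrix.map_apply]
  exact (spec s).commutes _

/-- the value of a relation of the next point -/
lemma nx_eval (π : ℤ → Matrix ι ι ℂ) (g : Matrix ι ι E) (s : Eˣ) (f : MvPolynomial (ι × ι) ℂ) :
    spec s (MvPolynomial.aeval (ent (nx w π g)) f) =
      MvPolynomial.aeval (ent (lU w π s * g)) f := by
  have h3 := aeval_ent_map ((spec s).restrictScalars ℂ) (nx w π g) f
  have h4 : (nx w π g).map ((spec s).restrictScalars ℂ) = lU w π s * g := nx_spec π g s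
  rw [h4] at h3
  exact h3

/-- If the next point has no more independent functions, then it satisfies the same relations. -/
lemma nx_rel {g : Matrix ι ι E} {r : ℕ} (hr : Tr ℂ (ent g) r) {π : ℤ → Matrix ι ι ℂ}
    (hπ : ∑ k ∈ Finset.Icc (-w : ℤ) w, π k = 1)
    (hn : ¬ Tr ℂ (ent ((nx w π g).map (algebraMap (E[T;T⁻¹]) (FractionRing (E[T;T⁻¹])))))
      (r + 1)) (f : MvPolynomial (ι × ι) ℂ) (hf : MvPolynomial.aeval (ent g) f = 0) :
    MvPolynomial.aeval (ent (nx w π g)) f = 0 := by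
  classical
  by_contra hz
  obtain ⟨κ, _, G, rfl, hG⟩ := hr
  let j : E[T;T⁻¹] →ₐ[ℂ] FractionRing (E[T;T⁻¹]) := IsScalarTower.toAlgHom ℂ _ _
  have hj : Function.Injective j := IsFractionRing.injective (E[T;T⁻¹]) _
  have h1 : ¬ AlgebraicIndependent ℂ (fun o : Option κ =>
      MvPolynomial.aeval (ent ((nx w π g).map (algebraMap (E[T;T⁻¹]) (FractionRing (E[T;T⁻¹])))))
        ((fun o : Option κ => o.elim f G) o)) := fun h =>
    hn ⟨Option κ, inferInstance, fun o => o.elim f G, Fintype.card_option, h⟩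
  rw [algebraicIndependent_iff] at h1
  push Not at h1
  obtain ⟨P, hP, hP0⟩ := h1
  have h2 : MvPolynomial.aeval (fun o : Option κ => o.elim
      (MvPolynomial.aeval (ent (nx w π g)) f)
      (fun i => MvPolynomial.aeval (ent (nx w π g)) (G i))) P = 0 := by
    apply hj
    rw [map_zero, ← hP]
    have h3 : ∀ (y : Option κ → E[T;T⁻¹]), j (MvPolynomial.aeval y P) =
        MvPolynomial.aeval (fun o => j (y o)) P := by
      intro y
      have h : (j.comp (MvPolynomial.aeval y)) = MvPolynomial.aeval (fun o => j (y o)) := by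
        apply MvPolynomial.algHom_ext
        intro i
        rw [AlgHom.comp_apply, MvPolynomial.aeval_X, MvPolynomial.aeval_X]
      exact DFunLike.congr_fun h P
    rw [h3]
    congr 2
    funext o
    rcases o with _ | i
    · exact aeval_ent_map j (nx w π g) f
    · exact aeval_ent_map j (nx w π g) (G i)
  rw [aeval_option] at h2
  obtain ⟨Q, hQ⟩ : ∃ Q, Q = MvPolynomial.optionEquivLeft ℂ κ P := ⟨_, rfl⟩
  have hQ0 : Q ≠ 0 := by
    rw [hQ]
    exact (map_ne_zero_iff _ (MvPolynomial.optionEquivLeft ℂ κ).injective).2 hP0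
  rw [← hQ] at h2
  obtain ⟨Q₁, hQ₁, hnd⟩ := Polynomial.exists_eq_pow_rootMultiplicity_mul_and_not_dvd Q hQ0 0
  rw [hQ₁, Polynomial.eval₂_mul, Polynomial.eval₂_pow, Polynomial.eval₂_sub, Polynomial.eval₂_X,
    Polynomial.C_0, Polynomial.eval₂_zero, sub_zero, mul_eq_zero] at h2
  have h3 := h2.resolve_left (pow_ne_zero _ hz)
  -- specialisation
  have h4 := congrArg (spec (1 : Eˣ)) h3
  rw [map_zero] at h4
  have h5 : spec (1 : Eˣ) (Polynomial.eval₂ ((MvPolynomial.aeval (fun i =>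
      MvPolynomial.aeval (ent (nx w π g)) (G i)) : MvPolynomial κ ℂ →ₐ[ℂ] E[T;T⁻¹]) :
        MvPolynomial κ ℂ →+* E[T;T⁻¹]) (MvPolynomial.aeval (ent (nx w π g)) f) Q₁) =
      Polynomial.eval₂ ((MvPolynomial.aeval (fun i => MvPolynomial.aeval (ent g) (G i)) :
        MvPolynomial κ ℂ →ₐ[ℂ] E) : MvPolynomial κ ℂ →+* E) (MvPolynomial.aeval (ent g) f) Q₁ := by
    have hs : ∀ p : MvPolynomial (ι × ι) ℂ, spec (1 : Eˣ) (MvPolynomial.aeval (ent (nx w π g)) p) =
        MvPolynomial.aeval (ent g) p := by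
      intro p
      rw [nx_eval, lU_one hπ, Matrix.one_mul]
    have h7 := Polynomial.hom_eval₂ Q₁ ((MvPolynomial.aeval (fun i =>
      MvPolynomial.aeval (ent (nx w π g)) (G i)) : MvPolynomial κ ℂ →ₐ[ℂ] E[T;T⁻¹]) :
        MvPolynomial κ ℂ →+* E[T;T⁻¹]) ((spec (1 : Eˣ) : E[T;T⁻¹] →ₐ[E] E) : E[T;T⁻¹] →+* E)
          (MvPolynomial.aeval (ent (nx w π g)) f)
    have h8 : (((spec (1 : Eˣ) : E[T;T⁻¹] →ₐ[E] E) : E[T;T⁻¹] →+* E).comp
        ((MvPolynomial.aeval (fun i => MvPolynomial.aeval (ent (nx w π g)) (G i)) :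
          MvPolynomial κ ℂ →ₐ[ℂ] E[T;T⁻¹]) : MvPolynomial κ ℂ →+* E[T;T⁻¹])) =
        ((MvPolynomial.aeval (fun i => MvPolynomial.aeval (ent g) (G i)) :
          MvPolynomial κ ℂ →ₐ[ℂ] E) : MvPolynomial κ ℂ →+* E) := by
      apply MvPolynomial.ringHom_ext
      · intro a
        simp only [RingHom.comp_apply, RingHom.coe_coe, MvPolynomial.aeval_C]
        exact ((spec (1 : Eˣ)).restrictScalars ℂ).commutes a
      · intro i
        simp only [RingHom.comp_apply, RingHom.coe_coe, MvPolynomial.aeval_X]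
        exact hs _
    rw [h8] at h7
    refine h7.trans ?_
    congr 1
    exact hs f
  rw [h5, hf, Polynomial.eval₂_at_zero] at h4
  apply hnd
  rw [Polynomial.C_0, sub_zero, Polynomial.X_dvd_iff]
  exact (algebraicIndependent_iff.1 hG) _ h4

/-- a Laurent polynomial which vanishes at all complex numbers is zero -/
lemma laurent_zero {p : E[T;T⁻¹]} (h : ∀ (t : ℂ) (ht : t ≠ 0),
    spec (Units.map ((algebraMap ℂ E : ℂ →+* E) : ℂ →* E) (Units.mk0 t ht)) p = 0) : p = 0 := by
  obtain ⟨n, q, hq⟩ := LaurentPolynomial.exists_T_pow p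
  have hev : ∀ (s : Eˣ) (q : Polynomial E), spec s (Polynomial.toLaurent q) = q.eval (s : E) := by
    intro s q
    induction q using Polynomial.induction_on' with
    | add a b ha hb => rw [map_add, map_add, ha, hb, Polynomial.eval_add]
    | monomial n a =>
      rw [← Polynomial.C_mul_X_pow_eq_monomial, map_mul, Polynomial.toLaurent_C,
        Polynomial.toLaurent_X_pow, map_mul, Polynomial.eval_mul, Polynomial.eval_C,
        Polynomial.eval_pow, Polynomial.eval_X]
      congr 1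
      · rw [C_eq_algebraMap]
        exact (spec s).commutes a
      · change LaurentPolynomial.eval₂ (RingHom.id E) s (T (n : ℤ)) = _
        rw [eval₂_T, _root_.zpow_natCast, Units.val_pow_eq_pow_val]
  have hq0 : q = 0 := by
    apply Polynomial.eq_zero_of_infinite_isRoot
    refine Set.Infinite.mono (s := (fun t : ℂ => algebraMap ℂ E t) '' {t : ℂ | t ≠ 0}) ?_ ?_
    · rintro _ ⟨t, ht, rfl⟩
      have h1 := hev (Units.map ((algebraMap ℂ E : ℂ →+* E) : ℂ →* E) (Units.mk0 t ht)) q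
      rw [hq, map_mul, h t ht, zero_mul] at h1
      exact h1.symm
    · refine Set.Infinite.image (Function.Injective.injOn (algebraMap ℂ E).injective) ?_
      exact Set.Finite.infinite_compl (Set.finite_singleton (0 : ℂ))
  rw [hq0, map_zero] at hq
  have h2 : p * T (n : ℤ) * T (-n : ℤ) = 0 := by rw [← hq, zero_mul]
  rwa [mul_assoc, ← T_add, add_neg_cancel, T_zero, mul_one] at h2

/-- The next point is generic if it has one more independent function. -/
lemma nx_isG {g : Matrix ι ι E} {r : ℕ} (hg : IsG w o P E g r) {π : ℤ → Matrix ι ι ℂ}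
    (hπP : π ∈ P) (hπ : IsCo w o π)
    (hn : Tr ℂ (ent ((nx w π g).map (algebraMap (E[T;T⁻¹]) (FractionRing (E[T;T⁻¹])))))
      (r + 1)) :
    IsG w o P (FractionRing (E[T;T⁻¹]))
      ((nx w π g).map (algebraMap (E[T;T⁻¹]) (FractionRing (E[T;T⁻¹])))) (r + 1) := by
  let j : E[T;T⁻¹] →ₐ[ℂ] FractionRing (E[T;T⁻¹]) := IsScalarTower.toAlgHom ℂ _ _
  have hj : Function.Injective j := IsFractionRing.injective (E[T;T⁻¹]) _
  have he : (nx w π g).map (algebraMap (E[T;T⁻¹]) (FractionRing (E[T;T⁻¹]))) =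
      lU w π (Units.map (j : E[T;T⁻¹] →* FractionRing (E[T;T⁻¹])) (TU E)) *
        g.map (algebraMap E (FractionRing (E[T;T⁻¹]))) := by
    rw [← lU_map j, nx]
    refine (Matrix.map_mul (f := (j : E[T;T⁻¹] →+* FractionRing (E[T;T⁻¹])))).trans ?_
    congr 1
  refine ⟨hn, fun d => ?_, fun f hf => ?_, fun f hf => ?_, ?_⟩
  · rw [he]
    have h1 := Vd_next' (w := w) π (Units.map (j : E[T;T⁻¹] →* FractionRing (E[T;T⁻¹])) (TU E)) g d
    obtain ⟨h2, h3⟩ := LV_finrank (E' := FractionRing (E[T;T⁻¹]))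
      ((Units.map (j : E[T;T⁻¹] →* FractionRing (E[T;T⁻¹])) (TU E) :
        (FractionRing (E[T;T⁻¹]))ˣ) : FractionRing (E[T;T⁻¹])) (Vd g d) (w * d)
    refine (Submodule.finrank_mono h1).trans (h3.trans ?_)
    have h4 := hg.dim d
    rw [mul_assoc] at h4
    rw [pow_succ, mul_comm, mul_assoc]
    exact Nat.mul_le_mul_right _ h4
  · have h1 : MvPolynomial.aeval (ent (nx w π g)) f = 0 := by
      apply laurent_zero
      intro t ht
      rw [nx_eval]
      have h2 := lU_map (w := w) (Algebra.ofId ℂ E) π (Units.mk0 t ht)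
      rw [lU_complex] at h2
      have h3 : (lt w π t).map (algebraMap ℂ E) = lU w π (Units.map
        ((algebraMap ℂ E : ℂ →+* E) : ℂ →* E) (Units.mk0 t ht)) := h2
      rw [← h3, ← aeval_sbs]
      apply hg.van
      intro γ hγ
      rw [aeval_sbs]
      exact hf _ (Submonoid.mul_mem _ (Submonoid.subset_closure ⟨π, hπP, t, ht, rfl⟩) hγ)
    have h2 := aeval_ent_map j (nx w π g) f
    rw [h1, map_zero] at h2
    exact h2.symm
  · apply hg.one
    have h2 := aeval_ent_map j (nx w π g) f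
    have h1 : MvPolynomial.aeval (ent (nx w π g)) f = 0 := by
      apply hj
      rw [map_zero]
      exact h2.trans hf
    have h3 := nx_eval (w := w) π g 1 f
    rw [h1, map_zero, lU_one hπ.sum, Matrix.one_mul] at h3
    exact h3.symm
  · rw [he]
    exact (lU_ucol hπ _).mul (hg.unit.map (algebraMap E (FractionRing (E[T;T⁻¹]))))

end Next

/-- **Existence of a generic point with a stable ideal of relations.** -/
theorem exists_gen (hP : ∀ π ∈ P, IsCo w o π) : ∃ (r : ℕ) (E : Type) (_ : Field E)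
    (_ : Algebra ℂ E) (g : Matrix ι ι E),
    r ≤ Fintype.card ι ^ 2 ∧ IsG w o P E g r ∧
      ∀ γ ∈ CG w P, ∀ f : MvPolynomial (ι × ι) ℂ, MvPolynomial.aeval (ent g) f = 0 →
        MvPolynomial.aeval (ent (γ.map (algebraMap ℂ E) * g)) f = 0 := by
  classical
  have hb : ∀ r, (∃ (E : Type) (_ : Field E) (_ : Algebra ℂ E) (g : Matrix ι ι E),
      IsG w o P E g r) → r ≤ Fintype.card ι ^ 2 := by
    rintro r ⟨E, _, _, g, hg⟩
    have := hg.tr.le_card
    rwa [Fintype.card_prod, ← sq] at this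
  obtain ⟨r, hr, hmax⟩ : ∃ r, (∃ (E : Type) (_ : Field E) (_ : Algebra ℂ E) (g : Matrix ι ι E),
      IsG w o P E g r) ∧ ¬ (∃ (E : Type) (_ : Field E) (_ : Algebra ℂ E) (g : Matrix ι ι E),
        IsG w o P E g (r + 1)) := by
    by_contra hcon
    push Not at hcon
    have hall : ∀ r, ∃ (E : Type) (_ : Field E) (_ : Algebra ℂ E) (g : Matrix ι ι E),
        IsG w o P E g r := by
      intro r
      induction r with
      | zero => exact ⟨ℂ, inferInstance, inferInstance, 1, isG_zero⟩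
      | succ r ih => exact hcon r ih
    have := hb _ (hall (Fintype.card ι ^ 2 + 1))
    omega
  have hr' := hb r hr
  obtain ⟨E, _, _, g, hg⟩ := hr
  refine ⟨r, E, inferInstance, inferInstance, g, hr', hg, ?_⟩
  have hstep : ∀ π ∈ P, ∀ (f : MvPolynomial (ι × ι) ℂ), MvPolynomial.aeval (ent g) f = 0 →
      ∀ s : Eˣ, MvPolynomial.aeval (ent (lU w π s * g)) f = 0 := by
    intro π hπ f hf s
    have h1 : ¬ Tr ℂ (ent ((nx w π g).map (algebraMap (E[T;T⁻¹]) (FractionRing (E[T;T⁻¹])))))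
        (r + 1) := fun h => hmax ⟨_, inferInstance, inferInstance, _, nx_isG hg hπ (hP π hπ) h⟩
    have h2 := nx_rel hg.tr (hP π hπ).sum h1 f hf
    have h3 := nx_eval (w := w) π g s f
    rw [h2, map_zero] at h3
    exact h3.symm
  intro γ hγ
  induction hγ using Submonoid.closure_induction with
  | mem x hx =>
    obtain ⟨π, hπ, t, ht, rfl⟩ := hx
    intro f hf
    have h1 := hstep π hπ f hf (Units.map ((algebraMap ℂ E : ℂ →+* E) : ℂ →* E)
      (Units.mk0 t ht))
    have h2 := lU_map (w := w) (Algebra.ofId ℂ E) π (Units.mk0 t ht)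
    rw [lU_complex] at h2
    have h3 : (lt w π t).map (algebraMap ℂ E) = lU w π (Units.map
        ((algebraMap ℂ E : ℂ →+* E) : ℂ →* E) (Units.mk0 t ht)) := h2
    rw [h3]
    exact h1
  | one =>
    intro f hf
    rw [Matrix.map_one _ (map_zero _) (map_one _), Matrix.one_mul]
    exact hf
  | mul x y _ _ hx hy =>
    intro f hf
    have hmul : (x * y).map (algebraMap ℂ E) * g =
        x.map (algebraMap ℂ E) * (y.map (algebraMap ℂ E) * g) := by
      rw [Matrix.map_mul, Matrix.mul_assoc]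
    rw [hmul, ← aeval_sbs]
    exact hy (sbs x f) (by rw [aeval_sbs]; exact hx f hf)

lemma CG_ucol (hP : ∀ π ∈ P, IsCo w o π) {γ : Matrix ι ι ℂ} (hγ : γ ∈ CG w P) : UCol o γ := by
  induction hγ using Submonoid.closure_induction with
  | mem x hx =>
    obtain ⟨π, hπ, t, ht, rfl⟩ := hx
    exact (hP π hπ).unit t ht
  | one =>
    intro i
    rw [Matrix.one_apply]
  | mul x y _ _ hx hy => exact hx.mul hy

/-- A relation of the generic point represented by a linear function of the Kronecker power is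
preserved by matrices which are combinations of elements of the group. -/
lemma rel_of_CG (hP : ∀ π ∈ P, IsCo w o π) {E : Type} [Field E] [Algebra ℂ E] {g : Matrix ι ι E}
    (hst : ∀ γ ∈ CG w P, ∀ f : MvPolynomial (ι × ι) ℂ, MvPolynomial.aeval (ent g) f = 0 →
        MvPolynomial.aeval (ent (γ.map (algebraMap ℂ E) * g)) f = 0)
    (hg : UCol o g) {κ : Type} [Fintype κ] [DecidableEq κ] {q : Matrix ι ι ℂ}
    (hq : kp κ q ∈ Submodule.span ℂ (kp κ '' (CG w P : Set (Matrix ι ι ℂ))))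
    (hqu : UCol o q) {f : MvPolynomial (ι × ι) ℂ}
    {φ : Matrix (κ → ι) (κ → ι) ℂ} (hφ : Rep o κ f φ)
    (hf : MvPolynomial.aeval (ent g) f = 0) :
    MvPolynomial.aeval (ent (q.map (algebraMap ℂ E) * g)) f = 0 := by
  rw [hφ E _ ((hqu.map (algebraMap ℂ E)).mul hg)]
  -- the linear function
  have key : ∀ x ∈ Submodule.span ℂ (kp κ '' (CG w P : Set (Matrix ι ι ℂ))),
      ∑ i, ∑ j, algebraMap ℂ E (φ i j) * (x.map (algebraMap ℂ E) * kp κ g) i j = 0 := by
    intro x hx
    induction hx using Submodule.span_induction with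
    | mem x hx =>
      obtain ⟨γ, hγ, rfl⟩ := hx
      have h1 := hst γ hγ f hf
      rw [hφ E _ (((CG_ucol hP hγ).map (algebraMap ℂ E)).mul hg)] at h1
      rw [← h1]
      refine Finset.sum_congr rfl fun i _ => Finset.sum_congr rfl fun j _ => ?_
      rw [kp_mul, kp_map]
    | zero =>
      refine Finset.sum_eq_zero fun i _ => Finset.sum_eq_zero fun j _ => ?_
      have : (0 : Matrix (κ → ι) (κ → ι) ℂ).map (algebraMap ℂ E) = 0 :=
        Matrix.map_zero _ (map_zero _)
      rw [this, Matrix.zero_mul, Matrix.zero_apply, mul_zero]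
    | add x y _ _ hx hy =>
      have h1 : (x + y).map (algebraMap ℂ E) = x.map (algebraMap ℂ E) + y.map (algebraMap ℂ E) :=
        Matrix.map_add _ (map_add _) _ _
      rw [h1, Matrix.add_mul]
      simp only [Matrix.add_apply, mul_add, Finset.sum_add_distrib]
      rw [hx, hy, add_zero]
    | smul c x _ hx =>
      have h1 : (c • x).map (algebraMap ℂ E) = algebraMap ℂ E c • x.map (algebraMap ℂ E) := by
        ext i j
        simp
      rw [h1, Matrix.smul_mul]
      have h2 : ∀ i j, algebraMap ℂ E (φ i j) * (algebraMap ℂ E c • (x.map (algebraMap ℂ E) *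
          kp κ g)) i j = algebraMap ℂ E c * (algebraMap ℂ E (φ i j) * (x.map (algebraMap ℂ E) *
          kp κ g) i j) := by
        intro i j
        rw [Matrix.smul_apply, smul_eq_mul]
        ring
      simp only [h2, ← Finset.mul_sum]
      rw [hx, mul_zero]
  have h2 := key _ hq
  rw [← h2]
  refine Finset.sum_congr rfl fun i _ => Finset.sum_congr rfl fun j _ => ?_
  rw [kp_mul, kp_map]

/-- **Task GEN.** -/
theorem gen : S_GEN := by
  intro ι _ _ w o P hP p p' hp'p hpu hGp hGp' f hf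
  classical
  obtain ⟨R, hR⟩ : ∃ R, R = Fintype.card ι ^ 2 := ⟨_, rfl⟩
  obtain ⟨B, hB⟩ : ∃ B, B = ((2 * w + 1) * (R + 1)) ^ R := ⟨_, rfl⟩
  obtain ⟨D, hD⟩ : ∃ D, D = bd R w := ⟨_, rfl⟩
  have hDB : D = (R + 1) * B := by rw [hD, hB, bd]
  rw [← hR, ← hD] at hGp hGp'
  have hpp' : p * p' = 1 := mul_eq_one_comm.1 hp'p
  have hp'u : UCol o p' := by
    intro i
    have h1 := congrFun (congrFun hp'p i) o
    rw [Matrix.mul_apply, Finset.sum_eq_single o, hpu o, if_pos rfl, mul_one,
      Matrix.one_apply] at h1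
    · exact h1
    · intro b _ hb; rw [hpu b, if_neg hb, mul_zero]
    · intro h; exact absurd (Finset.mem_univ o) h
  obtain ⟨r, E, _, _, g, hr, hg, hst⟩ := exists_gen hP
  have hgu := hg.unit
  have hinv : p.map (algebraMap ℂ E) * (p'.map (algebraMap ℂ E) * g) = g := by
    rw [← Matrix.mul_assoc, ← Matrix.map_mul, hpp', Matrix.map_one _ (map_zero _) (map_one _),
      Matrix.one_mul]
  have hJ : ∀ f : MvPolynomial (ι × ι) ℂ, f.totalDegree ≤ D →
      (MvPolynomial.aeval (ent g) f = 0 ↔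
        MvPolynomial.aeval (ent (p.map (algebraMap ℂ E) * g)) f = 0) := by
    intro f hf
    obtain ⟨φ, hφ⟩ := exists_rep o hf
    constructor
    · intro h
      exact rel_of_CG hP hst hgu hGp hpu hφ h
    · intro h
      rw [← aeval_sbs] at h
      have h2 := rel_of_CG hP hst hgu hGp' hp'u (hφ.sbs hpu) h
      rw [aeval_sbs, hinv] at h2
      exact h2
  obtain ⟨κ', _, _, lam, hc, hx, hx'⟩ := exists_common hg.tr (Tr.sbs hg.tr hp'p)
  obtain ⟨T, hT, hTc⟩ := exists_box κ' B
  rw [hc] at hT hTc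
  have hker : ∀ f : MvPolynomial (ι × ι) ℂ, MvPolynomial.aeval (ent g) f = 0 →
      MvPolynomial.aeval (ent (p.map (algebraMap ℂ E) * g)) f = 0 := by
    intro f hf
    refine ker_of_low lam hx hx' hJ (Vd g D) (fun f hf => mem_Vd.2 ⟨f, hf, rfl⟩) T
      (fun β hβ => ?_) ?_ f hf
    · refine (hT β hβ).trans ?_
      rw [hDB]
      exact Nat.mul_le_mul_right _ (by omega)
    · rw [hTc]
      refine lt_of_le_of_lt (hg.dim D) ?_
      rw [hD, hB]
      exact bd_lt (by omega)
  have h1 := hker f (hg.van f hf)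
  rw [← aeval_sbs] at h1
  have h2 := hg.one _ h1
  rw [aeval_sbs, Matrix.mul_one] at h2
  exact h2

end Pool.Agent.N123.TB.GEN
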